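import Pool.Agent.Lib.MP_bb5dbd_ag.Rep4

set_option autoImplicit false

namespace Pool.Agent.Results.MP_bb5dbd_ag.FieldForm

open MvPolynomial Filter

/-- The field `ℂ(x,y,w)` of rational functions in three variables. -/
abbrev K : Type := FractionRing (MvPolynomial (Fin 3) ℂ)

/-- The field `ℂ(x,y,w,z)`; the variable `none` is the scalar `z`. -/
abbrev KZ : Type := FractionRing (MvPolynomial (Option (Fin 3)) ℂ)

/-- The identity triple `(x,y,w)` in `ℂ(x,y,w)`. -/
noncomputable def xK : Fin 3 → K := fun i => algebraMap (MvPolynomial (Fin 3) ℂ) K (X i)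

/-- The triple `(x,y,w)` in `ℂ(x,y,w,z)`. -/
noncomputable def xZ : Fin 3 → KZ :=
  fun i => algebraMap (MvPolynomial (Option (Fin 3)) ℂ) KZ (X (some i))

/-- The scalar variable `z` in `ℂ(x,y,w,z)`. -/
noncomputable def zZ : KZ := algebraMap (MvPolynomial (Option (Fin 3)) ℂ) KZ (X none)

/-- The triple of rational functions `f` is defined at the point `a` of `L³` (`L` a field over
`ℂ`) and `f(a) = b`: each `f i` is a quotient `p/q` of polynomials with `q(a) ≠ 0` and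
`b i = p(a)/q(a)`. -/
def Maps {L : Type} [Field L] [Algebra ℂ L] (f : Fin 3 → K) (a b : Fin 3 → L) : Prop :=
  ∀ i, ∃ p q : MvPolynomial (Fin 3) ℂ, aeval a q ≠ 0 ∧
    f i = algebraMap (MvPolynomial (Fin 3) ℂ) K p / algebraMap (MvPolynomial (Fin 3) ℂ) K q ∧
    b i = aeval a p / aeval a q

/-- The projective translation equation `(1-z) φ(x) = φ(φ(z x) (1-z)/z)`, as an identity in the
field `ℂ(x,y,w,z)`. -/
def Translation (φ : Fin 3 → K) : Prop :=
  ∃ a b : Fin 3 → KZ, Maps φ xZ b ∧ Maps φ (zZ • xZ) a ∧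
    Maps φ (((1 - zZ) / zZ) • a) ((1 - zZ) • b)

/-- The boundary condition: `φ(z x)/z → x` as `z → 0`, for `x` in a nonempty open set. -/
def Boundary (φ : Fin 3 → K) : Prop :=
  ∃ U : Set (Fin 3 → ℂ), IsOpen U ∧ U.Nonempty ∧ ∀ x ∈ U, ∃ f : ℂ → (Fin 3 → ℂ),
    (∀ᶠ z in nhdsWithin (0 : ℂ) {0}ᶜ, Maps φ (z • x) (f z)) ∧
    Tendsto (fun z : ℂ => z⁻¹ • f z) (nhdsWithin (0 : ℂ) {0}ᶜ) (nhds x)

/-- The normal form `ψ_N = (x (w+1)^(N-1), y/(w+1), w/(w+1))`. -/
noncomputable def psi (N : ℕ) : Fin 3 → K :=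
  ![xK 0 * (xK 2 + 1) ^ ((N : ℤ) - 1), xK 1 / (xK 2 + 1), xK 2 / (xK 2 + 1)]

open Pool.Agent.Lib.MP_bb5dbd_ag

theorem Maps.eq_div {L : Type} [Field L] [Algebra ℂ L] {f : Fin 3 → K} {a b : Fin 3 → L}
    (h : Maps f a b) {P : Fin 3 → A3} {Q : A3}
    (hf : ∀ i, f i = algebraMap A3 K3 (P i) / algebraMap A3 K3 Q) (hQ : aeval a Q ≠ 0)
    (i : Fin 3) : b i = aeval a (P i) / aeval a Q := by
  obtain ⟨p, q, hq, e1, e2⟩ := h i
  have hq0 : q ≠ 0 := by
    rintro rfl
    exact hq (map_zero _)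
  have hQ0 : Q ≠ 0 := by
    rintro rfl
    exact hQ (map_zero _)
  rw [hf i, div_eq_div_iff (alg_ne_zero hQ0) (alg_ne_zero hq0), ← map_mul, ← map_mul] at e1
  have e3 := congrArg (aeval a : A3 →ₐ[ℂ] L) (IsFractionRing.injective A3 K3 e1)
  rw [map_mul, map_mul] at e3
  rw [e2, div_eq_div_iff hq hQ, e3]

theorem Maps.common {L : Type} [Field L] [Algebra ℂ L] {f : Fin 3 → K} {a b : Fin 3 → L}
    (h : Maps f a b) : ∃ (P : Fin 3 → A3) (Q : A3), aeval a Q ≠ 0 ∧
      ∀ i, f i = algebraMap A3 K3 (P i) / algebraMap A3 K3 Q := by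
  choose p q hq e1 _ using h
  have hq0 : ∀ i, algebraMap A3 K3 (q i) ≠ 0 := fun i => alg_ne_zero fun h0 => by
    have := hq i
    rw [h0] at this
    exact this (map_zero _)
  refine ⟨![p 0 * (q 1 * q 2), p 1 * (q 0 * q 2), p 2 * (q 0 * q 1)], q 0 * q 1 * q 2, ?_,
    fun i => ?_⟩
  · rw [map_mul, map_mul]
    exact mul_ne_zero (mul_ne_zero (hq 0) (hq 1)) (hq 2)
  · have h0 := hq0 0
    have h1 := hq0 1
    have h2 := hq0 2
    fin_cases i
    · change f 0 = algebraMap A3 K3 (p 0 * (q 1 * q 2)) / _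
      rw [e1 0, map_mul, map_mul, map_mul, map_mul]
      field_simp
    · change f 1 = algebraMap A3 K3 (p 1 * (q 0 * q 2)) / _
      rw [e1 1, map_mul, map_mul, map_mul, map_mul]
      field_simp
    · change f 2 = algebraMap A3 K3 (p 2 * (q 0 * q 1)) / _
      rw [e1 2, map_mul, map_mul, map_mul, map_mul]
      field_simp

theorem maps_hom (θ : K3 →ₐ[ℂ] K3) (f a b : Fin 3 → K) (ha : ∀ i, a i = θ (xg i))
    (hb : ∀ i, b i = θ (f i)) : Maps f a b := by
  intro i
  obtain ⟨p, q, hq, e⟩ := IsFractionRing.div_surjective (A := A3) (f i)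
  have ha' : a = fun i => θ (xg i) := funext ha
  refine ⟨p, q, ?_, e.symm, ?_⟩
  · rw [ha', ← hom_alg]
    exact (_root_.map_ne_zero θ).mpr (alg_ne_zero (nonZeroDivisors.ne_zero hq))
  · rw [hb, ← e, map_div₀, hom_alg, hom_alg, ha']

/-- Normal form of rational projective flows in dimension three, in the function field. -/
theorem result (φ : Fin 3 → K) (hne : φ ≠ xK) (htr : Translation φ)
    (hbd : Boundary φ ∨ AlgebraicIndependent ℂ φ) :
    ∃ (l m : Fin 3 → K) (N : ℕ), Maps l m xK ∧ Maps m l xK ∧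
      (∀ z : ℂ, z ≠ 0 → Maps l (z • xK) (z • l)) ∧
      ∃ a : Fin 3 → K, Maps φ l a ∧ Maps m a (psi N) := by
  classical
  obtain ⟨a, b, hb, ha, hc⟩ := htr
  obtain ⟨P, Q, hQc, hPQ⟩ := hc.common
  have hQ : Q ≠ 0 := by
    rintro rfl
    exact hQc (map_zero _)
  let Φ : (Fin 3 → ℂ) → (Fin 3 → ℂ) := fun p i => eval p (P i) / eval p Q
  have hΦ : ∀ p : Fin 3 → ℂ, Φ p = fun i => eval p (P i) / eval p Q := fun _ => rfl
  have hφ' : φ = fun i => algebraMap A3 K3 (P i) / algebraMap A3 K3 Q := funext hPQ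
  have hdom : Function.Injective
      (aeval (fun i => algebraMap A3 K3 (P i) / algebraMap A3 K3 Q) : A3 →ₐ[ℂ] K3) := by
    rcases hbd with ⟨U, hU, hUne, hlim⟩ | hind
    · obtain ⟨x₀, hx₀, hx₀'⟩ := exists_ne_zero_of_open hU hUne hQ
      refine dominant P Q Φ hQ hΦ (U ∩ {x | eval x Q ≠ 0})
        (hU.inter (isOpen_ne_fun (MvPolynomial.continuous_eval Q) continuous_const))
        ⟨x₀, hx₀, hx₀'⟩ fun x hx => ?_
      obtain ⟨f, hf, hf'⟩ := hlim x hx.1
      refine hf'.congr' ?_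
      filter_upwards [hf, ev_smul_ne_zero hx.2] with z h1 h2
      congr 1
      funext i
      have := h1.eq_div hPQ (by simpa only [aeval_eq_eval, coe_aeval_eq_eval] using h2) i
      simpa only [aeval_eq_eval, coe_aeval_eq_eval] using this
    · rw [← hφ']
      exact hind
  have hid : ¬ ∀ i : Fin 3, P i = X i * Q := by
    intro h
    apply hne
    funext i
    rw [hPQ i, h i, map_mul, mul_div_assoc, div_self (alg_ne_zero hQ), mul_one]
    rfl
  -- the translation equation at generic points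
  have hQx : aeval xZ Q ≠ 0 :=
    aeval4_ne_zero (fun i => X (some i)) (fun y => ⟨fun o => o.elim 1 y, by simp⟩) hQ
  have hQz : aeval (zZ • xZ) Q ≠ 0 := by
    have := aeval4_ne_zero (fun i => X none * X (some i))
      (fun y => ⟨fun o => o.elim 1 y, by simp⟩) hQ
    simp only [map_mul] at this
    exact this
  have rx : ∀ i, Rep4 (xZ i) (fun y => y (some i)) := fun i => rep4_X _
  have rz : Rep4 zZ (fun y => y none) := rep4_X _
  have r1 : Rep4 (1 - zZ) (fun y => 1 - y none) := by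
    simpa using (Rep4.const 1).sub rz
  have rb : ∀ i, Rep4 (b i) (fun y => Φ (fun j => y (some j)) i) := fun i => by
    rw [hb.eq_div hPQ hQx i]
    exact (Rep4.aeval rx _).div (Rep4.aeval rx _)
  have rzx : ∀ i, Rep4 ((zZ • xZ) i) (fun y => (y none • fun j => y (some j)) i) :=
    fun i => rz.mul (rx i)
  have ra : ∀ i, Rep4 (a i) (fun y => Φ (y none • fun j => y (some j)) i) := fun i => by
    rw [ha.eq_div hPQ hQz i]
    exact (Rep4.aeval rzx _).div (Rep4.aeval rzx _)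
  have rc : ∀ i, Rep4 ((((1 - zZ) / zZ) • a) i)
      (fun y => (((1 - y none) / y none) • Φ (y none • fun j => y (some j))) i) :=
    fun i => (r1.div rz).mul (ra i)
  have hgen : ∀ᶠ y in gen4, ∀ i, ((1 - y none) • Φ (fun j => y (some j))) i =
      Φ (((1 - y none) / y none) • Φ (y none • fun j => y (some j))) i := by
    rw [Filter.eventually_all]
    intro i
    have h1 : Rep4 (((1 - zZ) • b) i) (fun y => ((1 - y none) • Φ (fun j => y (some j))) i) :=
      r1.mul (rb i)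
    rw [hc.eq_div hPQ hQc i] at h1
    exact h1.unique ((Rep4.aeval rc _).div (Rep4.aeval rc _))
  obtain ⟨V, hV, hVne, hVeq⟩ := open_of_ev4 (P := fun q => q.2 ≠ 0 ∧
      (1 - q.2) • Φ q.1 = Φ (((1 - q.2) / q.2) • Φ (q.2 • q.1))) (by
    filter_upwards [hgen, ev4_ne_zero (X_ne_zero (none : Option (Fin 3)))] with y h1 h2
    exact ⟨by simpa using h2, funext h1⟩)
  let θ : K3 →ₐ[ℂ] K3 := subst _ hdom
  have hθ : ∀ i, θ (xg i) = algebraMap A3 K3 (P i) / algebraMap A3 K3 Q := subst_xg _ hdom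
  obtain ⟨N, ξ, htop, hhom, h0, h1, h2⟩ := field_normal_form P Q Φ hQ hΦ hid V hV hVne hVeq θ hθ
  have halg := isAlgebraic_of_adjoin_eq_top _ htop
  have hind : AlgebraicIndependent ℂ ξ :=
    (Algebra.IsAlgebraic.isTranscendenceBasis_of_le_trdeg_of_finite ℂ ξ
      (by rw [trdeg_K3]; simp)).1
  have hinj : Function.Injective (MvPolynomial.aeval ξ : A3 →ₐ[ℂ] K3) := hind
  let α₀ : K3 →ₐ[ℂ] K3 := subst ξ hinj
  have hsurj : Function.Surjective α₀ := by
    have : α₀.fieldRange = ⊤ := by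
      rw [eq_top_iff, ← htop, IntermediateField.adjoin_le_iff]
      rintro _ ⟨i, rfl⟩
      exact ⟨xg i, subst_xg ξ hinj i⟩
    intro y
    have hy : y ∈ α₀.fieldRange := this ▸ IntermediateField.mem_top
    exact hy
  let α : K3 ≃ₐ[ℂ] K3 := AlgEquiv.ofBijective α₀ ⟨α₀.toRingHom.injective, hsurj⟩
  have hα : ∀ i, α (xg i) = ξ i := subst_xg ξ hinj
  let β : K3 →ₐ[ℂ] K3 := α.symm
  have hβα : ∀ y, β (α y) = y := α.symm_apply_apply
  have hαβ : ∀ y, α (β y) = y := α.apply_symm_apply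
  have hβξ : ∀ i, β (ξ i) = xg i := fun i => by rw [← hα, hβα]
  refine ⟨fun i => β (xg i), ξ, N, ?_, ?_, fun z hz => ?_, fun i => β (φ i), ?_, ?_⟩
  · exact maps_hom (α : K3 →ₐ[ℂ] K3) _ _ _ (fun i => (hα i).symm) fun i => (hαβ _).symm
  · exact maps_hom β _ _ _ (fun i => rfl) fun i => (hβξ i).symm
  · refine maps_hom (tau z) _ _ _ (fun i => ?_) fun i => ?_
    · rw [tau_xg hz, Pi.smul_apply, Algebra.smul_def]
      rfl
    · have hcomm : (α : K3 →ₐ[ℂ] K3).comp (tau z) = (tau z).comp (α : K3 →ₐ[ℂ] K3) :=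
        hom_ext fun j => by
          change α (tau z (xg j)) = tau z (α (xg j))
          rw [tau_xg hz, map_mul, AlgEquiv.commutes, hα, hhom z hz]
      rw [Pi.smul_apply, Algebra.smul_def]
      apply α.injective
      have := congrArg (fun f : K3 →ₐ[ℂ] K3 => f (β (xg i))) hcomm
      change α (tau z (β (xg i))) = tau z (α (β (xg i))) at this
      rw [this, hαβ, map_mul, AlgEquiv.commutes, hαβ, tau_xg hz]
  · exact maps_hom β _ _ _ (fun i => rfl) fun i => rfl
  · refine maps_hom (β.comp θ) _ _ _ (fun i => ?_) fun i => ?_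
    · rw [AlgHom.comp_apply, hθ, hPQ]
    · rw [AlgHom.comp_apply]
      fin_cases i
      · change xg 0 * (xg 2 + 1) ^ ((N : ℤ) - 1) = β (θ (ξ 0))
        rw [h0, map_mul, map_zpow₀, map_add, map_one, hβξ, hβξ]
      · change xg 1 / (xg 2 + 1) = β (θ (ξ 1))
        rw [h1, map_div₀, map_add, map_one, hβξ, hβξ]
      · change xg 2 / (xg 2 + 1) = β (θ (ξ 2))
        rw [h2, map_div₀, map_add, map_one, hβξ]

end Pool.Agent.Results.MP_bb5dbd_ag.FieldForm
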